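import Pool.Agent.L5helper98.ID.Defs

/-! CRI: a necessary condition for infinite divisibility. -/

set_option autoImplicit false

open MeasureTheory ProbabilityTheory Filter Topology Set
open Pool.Agent.L5helper98.ID

namespace Pool.Agent.L5helper11.ID

lemma exp_meas (c : ℝ) : Measurable fun y : ℝ => Real.exp (c * y) := by fun_prop

lemma integrable_of_le {ρ : Measure ℝ} [IsProbabilityMeasure ρ]
    (h : Integrable (fun y => Real.exp (4 * y)) ρ) (c : ℝ) (hc0 : 0 ≤ c) (hc : c ≤ 4) :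
    Integrable (fun y => Real.exp (c * y)) ρ := by
  refine Integrable.mono' ((integrable_const (1 : ℝ)).add h) (exp_meas c).aestronglyMeasurable ?_
  filter_upwards with y
  rw [Real.norm_eq_abs, abs_of_pos (Real.exp_pos _)]
  simp only [Pi.add_apply]
  rcases le_total y 0 with hy | hy
  · have h1 : Real.exp (c * y) ≤ 1 := Real.exp_le_one_iff.2 (by nlinarith)
    linarith [Real.exp_pos (4 * y)]
  · have h1 : Real.exp (c * y) ≤ Real.exp (4 * y) := Real.exp_le_exp.2 (by nlinarith)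
    linarith

lemma root {ν : Measure ℝ} {n : ℕ} {ρ : Measure ℝ} [IsProbabilityMeasure ρ]
    (hρ : (Measure.pi (fun _ : Fin n => ρ)).map (fun y => ∑ i, y i) = ν) (c : ℝ) :
    ∫ y, Real.exp (c * y) ∂ν = (∫ y, Real.exp (c * y) ∂ρ) ^ n := by
  rw [← hρ, integral_map (by fun_prop) (exp_meas c).aestronglyMeasurable]
  have h1 : ∀ y : Fin n → ℝ, Real.exp (c * ∑ i, y i) = ∏ i, Real.exp (c * y i) := by
    intro y; rw [Finset.mul_sum, Real.exp_sum]
  simp_rw [h1]
  exact (integral_fintype_prod_eq_pow (ι := Fin n) (fun t : ℝ => Real.exp (c * t)) (μ := ρ)).trans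
    (by rw [Fintype.card_fin])

lemma m_pos {ν : Measure ℝ} [IsProbabilityMeasure ν] (c : ℝ)
    (h : Integrable (fun y => Real.exp (c * y)) ν) : 0 < ∫ y, Real.exp (c * y) ∂ν :=
  integral_exp_pos h

lemma poly {ρ : Measure ℝ} [IsProbabilityMeasure ρ]
    (h : Integrable (fun y => Real.exp (4 * y)) ρ) :
    0 ≤ (∫ y, Real.exp (4 * y) ∂ρ) - 4 * (∫ y, Real.exp (3 * y) ∂ρ) +
      6 * (∫ y, Real.exp (2 * y) ∂ρ) - 4 * (∫ y, Real.exp (1 * y) ∂ρ) + 1 := by
  have i1 := integrable_of_le h 1 (by norm_num) (by norm_num)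
  have i2 := integrable_of_le h 2 (by norm_num) (by norm_num)
  have i3 := integrable_of_le h 3 (by norm_num) (by norm_num)
  have h1 : 0 ≤ ∫ y, (Real.exp y - 1) ^ 4 ∂ρ := integral_nonneg fun y => by positivity
  have h2 : ∀ y : ℝ, (Real.exp y - 1) ^ 4 = Real.exp (4 * y) - 4 * Real.exp (3 * y) +
      6 * Real.exp (2 * y) - 4 * Real.exp (1 * y) + 1 := by
    intro y
    have e4 : Real.exp (4 * y) = Real.exp y ^ 4 := by
      rw [← Real.exp_nat_mul]; norm_num
    have e3 : Real.exp (3 * y) = Real.exp y ^ 3 := by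
      rw [← Real.exp_nat_mul]; norm_num
    have e2 : Real.exp (2 * y) = Real.exp y ^ 2 := by
      rw [← Real.exp_nat_mul]; norm_num
    rw [e4, e3, e2, one_mul]; ring
  simp_rw [h2] at h1
  have j1 : Integrable (fun y => Real.exp (4 * y) - 4 * Real.exp (3 * y)) ρ := h.sub (i3.const_mul 4)
  have j2 : Integrable (fun y => Real.exp (4 * y) - 4 * Real.exp (3 * y) + 6 * Real.exp (2 * y)) ρ :=
    j1.add (i2.const_mul 6)
  have j3 : Integrable (fun y => Real.exp (4 * y) - 4 * Real.exp (3 * y) + 6 * Real.exp (2 * y) -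
    4 * Real.exp (1 * y)) ρ := j2.sub (i1.const_mul 4)
  rw [integral_add j3 (integrable_const _), integral_sub j2 (i1.const_mul 4),
    integral_add j1 (i2.const_mul 6),
    integral_sub h (i3.const_mul 4), integral_const_mul, integral_const_mul, integral_const_mul,
    integral_const] at h1
  simpa using h1

theorem CRI_holds : St_CRI := by
  intro ν hν hdiv hint
  have I1 := integrable_of_le hint 1 (by norm_num) (by norm_num)
  have I2 := integrable_of_le hint 2 (by norm_num) (by norm_num)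
  have I3 := integrable_of_le hint 3 (by norm_num) (by norm_num)
  have e1 : ∫ y, Real.exp y ∂ν = ∫ y, Real.exp (1 * y) ∂ν := by simp
  rw [e1]
  obtain ⟨m1, hm1⟩ : ∃ m, m = ∫ y, Real.exp (1 * y) ∂ν := ⟨_, rfl⟩
  obtain ⟨m2, hm2⟩ : ∃ m, m = ∫ y, Real.exp (2 * y) ∂ν := ⟨_, rfl⟩
  obtain ⟨m3, hm3⟩ : ∃ m, m = ∫ y, Real.exp (3 * y) ∂ν := ⟨_, rfl⟩
  obtain ⟨m4, hm4⟩ : ∃ m, m = ∫ y, Real.exp (4 * y) ∂ν := ⟨_, rfl⟩
  have p1 : 0 < m1 := hm1 ▸ m_pos 1 I1
  have p2 : 0 < m2 := hm2 ▸ m_pos 2 I2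
  have p3 : 0 < m3 := hm3 ▸ m_pos 3 I3
  have p4 : 0 < m4 := hm4 ▸ m_pos 4 hint
  rw [← hm1, ← hm2, ← hm3, ← hm4]
  -- the function of `t`
  set φ : ℝ → ℝ := fun t => Real.exp (t * Real.log m4) - 4 * Real.exp (t * Real.log m3) +
    6 * Real.exp (t * Real.log m2) - 4 * Real.exp (t * Real.log m1) + 1 with hφ
  have hroot : ∀ n : ℕ, 1 ≤ n → 0 ≤ φ (1 / n) := by
    intro n hn
    obtain ⟨ρ, hρp, hρ⟩ := hdiv n hn
    have hn0 : n ≠ 0 := by omega
    have r4 := root hρ 4
    have r3 := root hρ 3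
    have r2 := root hρ 2
    have r1 := root hρ 1
    rw [← hm4] at r4
    rw [← hm3] at r3
    rw [← hm2] at r2
    rw [← hm1] at r1
    have hI : Integrable (fun y => Real.exp (4 * y)) ρ := by
      by_contra hcon
      rw [integral_undef hcon, zero_pow hn0] at r4
      exact p4.ne' r4
    have key : ∀ (m a : ℝ), 0 < m → 0 ≤ a → m = a ^ n → Real.exp (1 / n * Real.log m) = a := by
      intro m a hm ha hma
      have ha' : 0 < a := by
        rcases ha.lt_or_eq with h | h
        · exact h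
        · rw [← h, zero_pow hn0] at hma
          exact absurd hma hm.ne'
      rw [hma, Real.log_pow]
      have hnr : (n : ℝ) ≠ 0 := by exact_mod_cast hn0
      rw [← mul_assoc, one_div_mul_cancel hnr, one_mul, Real.exp_log ha']
    have nn : ∀ c : ℝ, 0 ≤ ∫ y, Real.exp (c * y) ∂ρ := fun c =>
      integral_nonneg fun y => (Real.exp_pos _).le
    have h1 := poly hI
    simp only [hφ]
    rw [key m4 _ p4 (nn 4) r4, key m3 _ p3 (nn 3) r3, key m2 _ p2 (nn 2) r2, key m1 _ p1 (nn 1) r1]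
    exact h1
  have hφ0 : φ 0 = 0 := by simp only [hφ]; norm_num
  have hd : HasDerivAt φ (Real.log m4 - 4 * Real.log m3 + 6 * Real.log m2 - 4 * Real.log m1) 0 := by
    have d : ∀ L : ℝ, HasDerivAt (fun t : ℝ => Real.exp (t * L)) L 0 := by
      intro L
      have h1 : HasDerivAt (fun t : ℝ => t * L) (1 * L) 0 := (hasDerivAt_id (0 : ℝ)).mul_const L
      have h2 := h1.exp
      simpa using h2
    have h3 := ((((d (Real.log m4)).sub ((d (Real.log m3)).const_mul 4)).add
      ((d (Real.log m2)).const_mul 6)).sub ((d (Real.log m1)).const_mul 4)).add_const (1 : ℝ)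
    exact h3
  have hlim : Tendsto (fun n : ℕ => slope φ 0 (1 / ((n : ℝ) + 1))) atTop
      (𝓝 (Real.log m4 - 4 * Real.log m3 + 6 * Real.log m2 - 4 * Real.log m1)) := by
    refine hd.tendsto_slope.comp ?_
    rw [tendsto_nhdsWithin_iff]
    refine ⟨tendsto_one_div_add_atTop_nhds_zero_nat, Eventually.of_forall fun n => ?_⟩
    have : (0 : ℝ) < 1 / ((n : ℝ) + 1) := by positivity
    exact this.ne'
  have hge : 0 ≤ Real.log m4 - 4 * Real.log m3 + 6 * Real.log m2 - 4 * Real.log m1 := by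
    refine ge_of_tendsto' hlim fun n => ?_
    rw [slope_def_field, hφ0, sub_zero, sub_zero]
    have h1 := hroot (n + 1) (by omega)
    push_cast at h1
    exact div_nonneg h1 (by positivity)
  have hfin : Real.log (m3 ^ 4 * m1 ^ 4) ≤ Real.log (m4 * m2 ^ 6) := by
    rw [Real.log_mul (by positivity) (by positivity), Real.log_mul (by positivity) (by positivity),
      Real.log_pow, Real.log_pow, Real.log_pow]
    push_cast
    linarith
  exact (Real.log_le_log_iff (by positivity) (by positivity)).1 hfin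

end Pool.Agent.L5helper11.ID
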